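import Pool.Agent.X80.GR.Base

/-!
# Homogeneous sets of quadruples contain homogeneous chains of triples of levels
-/

set_option autoImplicit false

namespace Pool.Agent.X80.QR

open Finset Pool.Agent.TH138.NF Pool.Agent.X80.GR

/-- the data of a set of vertices -/
theorem setup {χ : Bool → ℕ → ℕ → ℕ → Bool} {N n : ℕ} {S : Finset ℕ} {β : Bool}
    (hS : S ⊆ range (2 ^ N)) (hc : S.card = n) (hH : Hom 4 (c4 χ) S β) :
    ∃ δ : ℕ → ℕ, (∀ i, i + 1 < n → δ i < N) ∧ (∀ i, i + 2 < n → δ i ≠ δ (i + 1)) ∧
      ∀ a b c d, a < b → b < c → c < d → d < n → ∀ i j k, a ≤ i → i < b → b ≤ j → j < c →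
        c ≤ k → k < d → (∀ l, a ≤ l → l < b → δ l ≤ δ i) → (∀ l, b ≤ l → l < c → δ l ≤ δ j) →
        (∀ l, c ≤ l → l < d → δ l ≤ δ k) → rule χ (δ i) (δ j) (δ k) = β := by
  have four' := fun a b c d hab hbc hcd hd' => four hH a b c d hab hbc hcd hd'
  obtain ⟨x, hxdef⟩ : ∃ x, x = sq S := ⟨_, rfl⟩
  rw [← hxdef] at four'
  rw [hc] at four'
  have hx : ∀ i, i + 1 < n → x i < x (i + 1) := by
    intro i hi
    rw [hxdef]
    exact sq_lt (Nat.lt_succ_self i) (by omega)
  have hxN : ∀ i, i < n → x i < 2 ^ N := by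
    intro i hi
    rw [hxdef]
    exact mem_range.1 (hS (sq_mem (by omega)))
  obtain ⟨δ, hδ⟩ : ∃ δ : ℕ → ℕ, ∀ i, δ i = hd (x i) (x (i + 1)) := ⟨_, fun i => rfl⟩
  have hmax : ∀ a b c, a ≤ c → c < b → b < n → (∀ i, a ≤ i → i < b → δ i ≤ δ c) →
      hd (x a) (x b) = δ c := by
    intro a b c h1 h2 h3 h4
    rw [hδ c]
    apply hd_eq_of_max x n hx a b c h1 h2 h3
    intro i hi1 hi2
    rw [← hδ, ← hδ]
    exact h4 i hi1 hi2
  refine ⟨δ, ?_, ?_, ?_⟩
  · intro i hi
    rw [hδ]
    exact hd_lt (hx i (by omega)) (hxN _ (by omega))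
  · intro i hi
    rw [hδ, hδ]
    exact hd_ne (hx i (by omega)) (hx (i + 1) (by omega))
  · intro a b c d hab hbc hcd hd' i j k h1 h2 h3 h4 h5 h6 m1 m2 m3
    have := four' a b c d hab hbc hcd hd'
    rw [hmax a b i h1 h2 (by omega) m1, hmax b c j h3 h4 (by omega) m2,
      hmax c d k h5 h6 (by omega) m3] at this
    exact this

theorem chainF {χ : Bool → ℕ → ℕ → ℕ → Bool} {N n h : ℕ} {S : Finset ℕ}
    (hS : S ⊆ range (2 ^ N)) (hc : S.card = n) (hh : 2 * h ≤ n + 1) (hn : 2 ≤ n)
    (hH : Hom 4 (c4 χ) S false) : ∃ (s : Bool) (f : ℕ → ℕ), (∀ i, i < h → f i < N) ∧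
      (∀ i j, i < j → j < h → f i < f j) ∧
      ∀ i j k, i < j → j < k → k < h → χ s (f i) (f j) (f k) = false := by
  obtain ⟨δ, hN, hne, hr⟩ := setup hS hc hH
  obtain ⟨m, hm⟩ : ∃ m, m + 1 = n := ⟨n - 1, by omega⟩
  have hmin : ∀ i, i + 2 < m → ¬ (δ (i + 1) < δ i ∧ δ (i + 1) < δ (i + 2)) := by
    rintro i hi ⟨h1, h2⟩
    have h3 := hr i (i + 1) (i + 2) (i + 3) (by omega) (by omega) (by omega) (by omega)
      i (i + 1) (i + 2) (by omega) (by omega) (by omega) (by omega) (by omega) (by omega)
      (by intro l h1 h2; rw [show l = i by omega])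
      (by intro l h1 h2; rw [show l = i + 1 by omega])
      (by intro l h1 h2; rw [show l = i + 2 by omega])
    rw [rule, if_neg (by omega), if_neg (by omega)] at h3
    simp [h1] at h3
  obtain ⟨p, hp, hinc, hdec⟩ := unimodal δ m (by omega) (fun i hi => hne i (by omega)) hmin
  rcases Nat.lt_or_ge (p + 1) h with hph | hph
  · refine ⟨false, fun i => δ (m - 1 - i), fun i hi => hN _ (by omega),
      fun i j hij hj => hdec (m - 1 - j) (m - 1 - i) (by omega) (by omega) (by omega), ?_⟩
    intro i j k hij hjk hk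
    obtain ⟨i', hi'⟩ : ∃ i', i' = m - 1 - i := ⟨_, rfl⟩
    obtain ⟨j', hj'⟩ : ∃ j', j' = m - 1 - j := ⟨_, rfl⟩
    obtain ⟨k', hk'⟩ : ∃ k', k' = m - 1 - k := ⟨_, rfl⟩
    have d1 : δ i' < δ j' := hdec j' i' (by omega) (by omega) (by omega)
    have d2 : δ j' < δ k' := hdec k' j' (by omega) (by omega) (by omega)
    have h3 := hr k' j' i' (i' + 1) (by omega) (by omega) (by omega) (by omega)
      k' j' i' le_rfl (by omega) le_rfl (by omega) le_rfl (by omega)
      (by
        intro l h1 h2
        rcases Nat.lt_or_ge k' l with h5 | h5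
        · exact (hdec k' l (by omega) h5 (by omega)).le
        · rw [show l = k' by omega])
      (by
        intro l h1 h2
        rcases Nat.lt_or_ge j' l with h5 | h5
        · exact (hdec j' l (by omega) h5 (by omega)).le
        · rw [show l = j' by omega])
      (by intro l h1 h2; rw [show l = i' by omega])
    rw [rule, if_neg (by omega), if_pos ⟨d1, d2⟩] at h3
    show χ false (δ (m - 1 - i)) (δ (m - 1 - j)) (δ (m - 1 - k)) = false
    rw [← hi', ← hj', ← hk']
    exact h3
  · refine ⟨true, δ, fun i hi => hN _ (by omega),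
      fun i j hij hj => hinc i j hij (by omega), ?_⟩
    intro i j k hij hjk hk
    have h3 := hr i (i + 1) (j + 1) (k + 1) (by omega) (by omega) (by omega) (by omega)
      i j k le_rfl (by omega) (by omega) (by omega) (by omega) (by omega)
      (by intro l h1 h2; rw [show l = i by omega])
      (by
        intro l h1 h2
        rcases Nat.lt_or_ge l j with h5 | h5
        · exact (hinc l j h5 (by omega)).le
        · rw [show l = j by omega])
      (by
        intro l h1 h2
        rcases Nat.lt_or_ge l k with h5 | h5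
        · exact (hinc l k h5 (by omega)).le
        · rw [show l = k by omega])
    rw [rule, if_pos ⟨hinc i j hij (by omega), hinc j k hjk (by omega)⟩] at h3
    exact h3

theorem chainT {χ : Bool → ℕ → ℕ → ℕ → Bool} {N n h : ℕ} {S : Finset ℕ}
    (hS : S ⊆ range (2 ^ N)) (hc : S.card = n) (hh : 2 * h ≤ n + 1) (hn : 2 ≤ n)
    (hH : Hom 4 (c4 χ) S true) : ∃ (s : Bool) (f : ℕ → ℕ), (∀ i, i < h → f i < N) ∧
      (∀ i j, i < j → j < h → f i < f j) ∧
      ∀ i j k, i < j → j < k → k < h → χ s (f i) (f j) (f k) = true := by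
  obtain ⟨δ, hN, hne, hr⟩ := setup hS hc hH
  obtain ⟨m, hm⟩ : ∃ m, m + 1 = n := ⟨n - 1, by omega⟩
  have hmaxi : ∀ i, i + 2 < m → ¬ (δ i < δ (i + 1) ∧ δ (i + 2) < δ (i + 1)) := by
    rintro i hi ⟨h1, h2⟩
    have h3 := hr i (i + 1) (i + 2) (i + 3) (by omega) (by omega) (by omega) (by omega)
      i (i + 1) (i + 2) (by omega) (by omega) (by omega) (by omega) (by omega) (by omega)
      (by intro l h1 h2; rw [show l = i by omega])
      (by intro l h1 h2; rw [show l = i + 1 by omega])
      (by intro l h1 h2; rw [show l = i + 2 by omega])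
    rw [rule, if_neg (by omega), if_neg (by omega)] at h3
    simp only [decide_eq_true_eq] at h3
    omega
  obtain ⟨q, hq, hdec0, hinc0⟩ := unimodal (α := ℕᵒᵈ) (fun i => OrderDual.toDual (δ i)) m
    (by omega) (fun i hi => hne i (by omega)) (fun i hi => hmaxi i hi)
  have hdec : ∀ i j, i < j → j ≤ q → δ j < δ i := fun i j h1 h2 => hdec0 i j h1 h2
  have hinc : ∀ i j, q ≤ i → i < j → j < m → δ i < δ j := fun i j h1 h2 h3 => hinc0 i j h1 h2 h3
  rcases Nat.lt_or_ge (q + 1) h with hph | hph
  · refine ⟨true, fun i => δ (q + i), fun i hi => hN _ (by omega),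
      fun i j hij hj => hinc (q + i) (q + j) (by omega) (by omega) (by omega), ?_⟩
    intro i j k hij hjk hk
    have h3 := hr (q + i) (q + i + 1) (q + j + 1) (q + k + 1) (by omega) (by omega) (by omega)
      (by omega) (q + i) (q + j) (q + k) le_rfl (by omega) (by omega) (by omega) (by omega)
      (by omega)
      (by intro l h1 h2; rw [show l = q + i by omega])
      (by
        intro l h1 h2
        rcases Nat.lt_or_ge l (q + j) with h5 | h5
        · exact (hinc l (q + j) (by omega) h5 (by omega)).le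
        · rw [show l = q + j by omega])
      (by
        intro l h1 h2
        rcases Nat.lt_or_ge l (q + k) with h5 | h5
        · exact (hinc l (q + k) (by omega) h5 (by omega)).le
        · rw [show l = q + k by omega])
    rw [rule, if_pos ⟨hinc _ _ (by omega) (by omega) (by omega),
      hinc _ _ (by omega) (by omega) (by omega)⟩] at h3
    exact h3
  · refine ⟨false, fun i => δ (h - 1 - i), fun i hi => hN _ (by omega),
      fun i j hij hj => hdec (h - 1 - j) (h - 1 - i) (by omega) (by omega), ?_⟩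
    intro i j k hij hjk hk
    obtain ⟨i', hi'⟩ : ∃ i', i' = h - 1 - i := ⟨_, rfl⟩
    obtain ⟨j', hj'⟩ : ∃ j', j' = h - 1 - j := ⟨_, rfl⟩
    obtain ⟨k', hk'⟩ : ∃ k', k' = h - 1 - k := ⟨_, rfl⟩
    have d1 : δ i' < δ j' := hdec j' i' (by omega) (by omega)
    have d2 : δ j' < δ k' := hdec k' j' (by omega) (by omega)
    have h3 := hr k' j' i' (i' + 1) (by omega) (by omega) (by omega) (by omega)
      k' j' i' le_rfl (by omega) le_rfl (by omega) le_rfl (by omega)
      (by
        intro l h1 h2
        rcases Nat.lt_or_ge k' l with h5 | h5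
        · exact (hdec k' l h5 (by omega)).le
        · rw [show l = k' by omega])
      (by
        intro l h1 h2
        rcases Nat.lt_or_ge j' l with h5 | h5
        · exact (hdec j' l h5 (by omega)).le
        · rw [show l = j' by omega])
      (by intro l h1 h2; rw [show l = i' by omega])
    rw [rule, if_neg (by omega), if_pos ⟨d1, d2⟩] at h3
    show χ false (δ (h - 1 - i)) (δ (h - 1 - j)) (δ (h - 1 - k)) = true
    rw [← hi', ← hj', ← hk']
    exact h3

/-- the triple colouring: `true` iff `g a b ≠ g a c` -/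
def chi3 (g : ℕ → ℕ → Bool) (_ : Bool) (a b c : ℕ) : Bool := decide (g a b ≠ g a c)

/-- Off-diagonal: on `2 ^ 2 ^ j` vertices there is a colouring of the quadruples without
homogeneous set of colour `true` with `7` elements and without homogeneous set of colour `false`
with `12 j + 11` elements. -/
theorem off_diagonal (j : ℕ) : ∃ c : Finset ℕ → Bool,
    (∀ S ⊆ range (2 ^ 2 ^ j), S.card = 7 → ¬ Hom 4 c S true) ∧
    (∀ S ⊆ range (2 ^ 2 ^ j), S.card = 12 * j + 11 → ¬ Hom 4 c S false) := by
  classical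
  obtain ⟨g, hg⟩ := exists_chi j
  refine ⟨c4 (chi3 g), ?_, ?_⟩
  · intro S hS hc hH
    obtain ⟨s, f, hN, hf, hχ⟩ := chainT (h := 4) hS hc (by omega) (by omega) hH
    have h1 := hχ 0 1 2 (by omega) (by omega) (by omega)
    have h2 := hχ 0 1 3 (by omega) (by omega) (by omega)
    have h3 := hχ 0 2 3 (by omega) (by omega) (by omega)
    simp only [chi3, decide_eq_true_eq] at h1 h2 h3
    cases e1 : g (f 0) (f 1) <;> cases e2 : g (f 0) (f 2) <;> cases e3 : g (f 0) (f 3) <;>
      simp_all
  · intro S hS hc hH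
    obtain ⟨s, f, hN, hf, hχ⟩ := chainF (h := 6 * j + 6) hS hc (by omega) (by omega) hH
    have hcon : ∀ a b c, a < b → b < c → c < 6 * j + 6 → g (f a) (f b) = g (f a) (f c) := by
      intro a b c h1 h2 h3
      have := hχ a b c h1 h2 h3
      simp only [chi3, decide_eq_false_iff_not, not_not] at this
      exact this
    -- the colour of `a`
    obtain ⟨v, hv⟩ : ∃ v : ℕ → Bool, ∀ a, v a = g (f a) (f (a + 1)) := ⟨_, fun _ => rfl⟩
    have hv' : ∀ a b, a < 4 * j + 4 → 4 * j + 4 ≤ b → b < 6 * j + 6 → g (f a) (f b) = v a := by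
      intro a b h1 h2 h3
      rw [hv]
      rcases Nat.lt_or_ge (a + 1) b with h4 | h4
      · exact (hcon a (a + 1) b (by omega) h4 h3).symm
      · rw [show b = a + 1 by omega]
    have hsplit := Finset.card_filter_add_card_filter_not (s := range (4 * j + 4))
      (fun a => v a = true)
    rw [card_range] at hsplit
    obtain ⟨b, A, hA, hAc, hAv⟩ : ∃ (b : Bool) (A : Finset ℕ), A ⊆ range (4 * j + 4) ∧
        A.card = 2 * j + 2 ∧ ∀ a ∈ A, v a = b := by
      rcases Nat.lt_or_ge ((range (4 * j + 4)).filter (fun a => v a = true)).card (2 * j + 2)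
        with h | h
      · obtain ⟨A, hA, hAc⟩ := Finset.exists_subset_card_eq
          (s := (range (4 * j + 4)).filter (fun a => ¬ v a = true)) (n := 2 * j + 2) (by omega)
        refine ⟨false, A, hA.trans (filter_subset _ _), hAc, fun a ha => ?_⟩
        have := (mem_filter.1 (hA ha)).2
        simpa using this
      · obtain ⟨A, hA, hAc⟩ := Finset.exists_subset_card_eq h
        exact ⟨true, A, hA.trans (filter_subset _ _), hAc, fun a ha => (mem_filter.1 (hA ha)).2⟩
    have hfinj : Set.InjOn f (range (6 * j + 6) : Finset ℕ) := by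
      intro a ha b hb hab
      simp only [coe_range, Set.mem_Iio] at ha hb
      rcases lt_trichotomy a b with h | h | h
      · exact absurd hab (hf a b h hb).ne
      · exact h
      · exact absurd hab (hf b a h ha).ne'
    obtain ⟨a, ha, b', hb', hne⟩ := hg (A.image f) ((Finset.Ico (4 * j + 4) (6 * j + 6)).image f)
      (by
        intro a ha
        obtain ⟨i, hi, rfl⟩ := mem_image.1 ha
        exact hN i (by have := mem_range.1 (hA hi); omega))
      (by
        intro a ha
        obtain ⟨i, hi, rfl⟩ := mem_image.1 ha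
        exact hN i (by have := mem_Ico.1 hi; omega))
      (by
        rw [card_image_of_injOn, hAc]
        intro a ha b hb hab
        exact hfinj (by have := mem_range.1 (hA ha); simp; omega)
          (by have := mem_range.1 (hA hb); simp; omega) hab)
      (by
        rw [card_image_of_injOn, Nat.card_Ico]
        · omega
        intro a ha b hb hab
        have h1 := Finset.mem_Ico.1 (Finset.mem_coe.1 ha)
        have h2 := Finset.mem_Ico.1 (Finset.mem_coe.1 hb)
        exact hfinj (by simp; omega) (by simp; omega) hab) b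
    obtain ⟨i, hi, rfl⟩ := mem_image.1 ha
    obtain ⟨l, hl, rfl⟩ := mem_image.1 hb'
    apply hne
    have h1 := mem_range.1 (hA hi)
    have h2 := mem_Ico.1 hl
    rw [hv' i l h1 h2.1 h2.2]
    exact hAv i hi

end Pool.Agent.X80.QR
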