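import Mathlib

/-!
# Two double counts
-/

set_option autoImplicit false

namespace Pool.Agent.X80.QR

open Finset

/-- If every `7`-subset contains a missing quadruple, at least one quadruple in `35` is missing. -/
theorem few_missing {α : Type} [DecidableEq α] (S : Finset α) (P : Finset α → Prop)
    [DecidablePred P] (hS : 7 ≤ S.card)
    (h7 : ∀ T ⊆ S, T.card = 7 → ∃ e ⊆ T, e.card = 4 ∧ ¬ P e) :
    S.card.choose 4 ≤ 35 * ((S.powersetCard 4).filter (fun e => ¬ P e)).card := by
  classical
  obtain ⟨R, hR⟩ : ∃ R, R = (S.powersetCard 4).filter (fun e => ¬ P e) := ⟨_, rfl⟩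
  have h1 : ∑ T ∈ S.powersetCard 7, (R.filter (fun e => e ⊆ T)).card =
      ∑ e ∈ R, ((S.powersetCard 7).filter (fun T => e ⊆ T)).card := by
    simp only [Finset.card_filter]
    rw [Finset.sum_comm]
  have h2 : S.card.choose 7 ≤ ∑ T ∈ S.powersetCard 7, (R.filter (fun e => e ⊆ T)).card := by
    rw [← Finset.card_powersetCard, Finset.card_eq_sum_ones]
    apply Finset.sum_le_sum
    intro T hT
    rw [mem_powersetCard] at hT
    obtain ⟨e, he, hec, heP⟩ := h7 T hT.1 hT.2
    apply Finset.card_pos.2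
    refine ⟨e, mem_filter.2 ⟨?_, he⟩⟩
    rw [hR, mem_filter, mem_powersetCard]
    exact ⟨⟨he.trans hT.1, hec⟩, heP⟩
  have h3 : ∀ e ∈ R, ((S.powersetCard 7).filter (fun T => e ⊆ T)).card ≤
      (S.card - 4).choose 3 := by
    intro e he
    rw [hR, mem_filter, mem_powersetCard] at he
    have h4 : (S \ e).card = S.card - 4 := by
      rw [card_sdiff_of_subset he.1.1, he.1.2]
    rw [← h4, ← Finset.card_powersetCard]
    apply Finset.card_le_card_of_injOn (fun T => T \ e)
    · intro T hT
      rw [mem_coe, mem_filter, mem_powersetCard] at hT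
      rw [mem_coe, mem_powersetCard]
      refine ⟨sdiff_subset_sdiff hT.1.1 le_rfl, ?_⟩
      rw [card_sdiff_of_subset hT.2, hT.1.2, he.1.2]
    · intro T hT T' hT' hTT
      rw [mem_coe, mem_filter] at hT hT'
      have e1 : T \ e ∪ e = T := sdiff_union_of_subset hT.2
      have e2 : T' \ e ∪ e = T' := sdiff_union_of_subset hT'.2
      rw [← e1, ← e2]
      simp only at hTT
      rw [hTT]
  have h4 : S.card.choose 7 ≤ R.card * (S.card - 4).choose 3 := by
    refine h2.trans (h1.le.trans ?_)
    refine (Finset.sum_le_card_nsmul _ _ _ h3).trans ?_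
    rw [smul_eq_mul]
  have h5 : S.card.choose 7 * 35 = S.card.choose 4 * (S.card - 4).choose 3 := by
    have := Nat.choose_mul (n := S.card) (k := 7) (s := 4) (by norm_num)
    have h6 : Nat.choose 7 4 = 35 := by decide
    rw [h6] at this
    exact this
  have h6 : 0 < (S.card - 4).choose 3 := Nat.choose_pos (by omega)
  rw [← hR]
  have h7' : S.card.choose 4 * (S.card - 4).choose 3 ≤ (35 * R.card) * (S.card - 4).choose 3 := by
    rw [← h5]
    nlinarith
  exact Nat.le_of_mul_le_mul_right h7' h6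

/-- Minimum degree and density. -/
theorem degree_density {α : Type} [DecidableEq α] (S : Finset α) (P : Finset α → Prop)
    [DecidablePred P] (ρ : ℝ) (hS : 4 ≤ S.card)
    (h : ∀ v ∈ S, ρ * (((S.card - 1).choose 3 : ℕ) : ℝ) ≤
      (((S.powersetCard 4).filter (fun e => v ∈ e ∧ P e)).card : ℝ)) :
    ρ * (S.card.choose 4 : ℕ) ≤ (((S.powersetCard 4).filter P).card : ℝ) := by
  classical
  have h1 : ∑ v ∈ S, ((S.powersetCard 4).filter (fun e => v ∈ e ∧ P e)).card =
      ((S.powersetCard 4).filter P).card * 4 := by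
    have e1 : ∀ v ∈ S, ((S.powersetCard 4).filter (fun e => v ∈ e ∧ P e)).card =
        ∑ e ∈ (S.powersetCard 4).filter P, if v ∈ e then 1 else 0 := by
      intro v _
      rw [← Finset.card_filter, Finset.filter_filter]
      congr 1
      apply Finset.filter_congr
      intro e _
      tauto
    rw [Finset.sum_congr rfl e1, Finset.sum_comm]
    have e2 : ∀ e ∈ (S.powersetCard 4).filter P, ∑ v ∈ S, (if v ∈ e then 1 else 0) = 4 := by
      intro e he
      rw [mem_filter, mem_powersetCard] at he
      rw [← Finset.card_filter, Finset.filter_mem_eq_inter, Finset.inter_eq_right.2 he.1.1,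
        he.1.2]
    rw [Finset.sum_congr rfl e2, Finset.sum_const, smul_eq_mul]
  have h2 : ∑ v ∈ S, ρ * (((S.card - 1).choose 3 : ℕ) : ℝ) ≤
      ∑ v ∈ S, (((S.powersetCard 4).filter (fun e => v ∈ e ∧ P e)).card : ℝ) :=
    Finset.sum_le_sum h
  rw [Finset.sum_const, nsmul_eq_mul, ← Nat.cast_sum, h1] at h2
  have h3 : S.card * (S.card - 1).choose 3 = S.card.choose 4 * 4 := by
    have := Nat.add_one_mul_choose_eq (S.card - 1) 3
    rw [show S.card - 1 + 1 = S.card by omega] at this
    exact this
  have h4 : (S.card : ℝ) * (((S.card - 1).choose 3 : ℕ) : ℝ) = (S.card.choose 4 : ℕ) * 4 := by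
    exact_mod_cast h3
  have h5 : ρ * ((S.card.choose 4 : ℕ) : ℝ) * 4 = S.card * (ρ * (((S.card - 1).choose 3 : ℕ) : ℝ)) := by
    rw [mul_assoc, ← h4]
    ring
  push_cast at h2 h5 ⊢
  linarith

end Pool.Agent.X80.QR
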